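import Pool.Agent.helper82.T6.SpecW

/-!
# T6, row WDM: the algebra of the twisted dual map
-/

set_option autoImplicit false

namespace Pool.Agent.T6

open Finset Pool.Agent.helper3.FT Pool.Agent.T5

/-- **WDM** -/
theorem WDM : WDM_stmt := by
  intro n k h u v ξ Ξ α β γ hn hk hcop hres hξ' hΞ'
  obtain ⟨r1', hr1⟩ := hξ'
  obtain ⟨r2', hr2⟩ := hΞ'
  have hξ : ξ = h * (2 * α * u + β * v) + n ^ 3 * k * r1' := by linarith
  have hΞ : Ξ = h * (β * u + 2 * γ * v) + n ^ 3 * k * r2' := by linarith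
  obtain ⟨a, ha⟩ := hres.hα
  obtain ⟨b, hb⟩ := hres.hβ
  obtain ⟨c, hc⟩ := hres.hγ
  obtain ⟨a', ha'⟩ := hres.kα
  obtain ⟨b', hb'⟩ := hres.kβ
  obtain ⟨c', hc'⟩ := hres.kγ
  -- A
  obtain ⟨A, hA⟩ : n ^ 3 ∣ h * v + k ^ 2 * ξ := by
    refine ⟨2 * h * a * u * k ^ 2 + h * v * b + k ^ 3 * r1', ?_⟩
    have e1 : h * v + k ^ 2 * ξ = h * v * (β * k ^ 2 + 1) + 2 * h * α * u * k ^ 2
        + n ^ 3 * k * k ^ 2 * r1' := by rw [hξ]; ring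
    rw [e1]
    linear_combination (h * v) * hb + (2 * h * u * k ^ 2) * ha
  -- X
  obtain ⟨X, hX⟩ : k ∣ Ξ := by
    refine ⟨h * (b' * u + 2 * c' * v) + n ^ 3 * r2', ?_⟩
    rw [hΞ]
    linear_combination (h * u) * hb' + (2 * h * v) * hc'
  have hcop3 : IsCoprime (n ^ 3) (k ^ 2) := hcop.pow
  obtain ⟨A', hA'⟩ : n ^ 3 ∣ h * u + 2 * n ^ 2 * ξ + k ^ 2 * Ξ := by
    refine hcop3.dvd_of_dvd_mul_left (z := h * u + 2 * n ^ 2 * ξ + k ^ 2 * Ξ) ?_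
    refine ⟨2 * n ^ 2 * A + h * u * b * k ^ 2 + 2 * h * v * c + k ^ 5 * r2', ?_⟩
    rw [hΞ]
    linear_combination (2 * n ^ 2) * hA + (h * u * k ^ 2) * hb + (2 * h * v) * hc
  obtain ⟨B, hB⟩ : k ∣ 2 * n * A' - 5 * ξ := by
    have hcop2 : IsCoprime k (n ^ 2) := hcop.symm.pow_right
    refine hcop2.dvd_of_dvd_mul_left ?_
    refine ⟨-(2 * h * u * a' + h * n ^ 2 * b' * v + n ^ 5 * r1') + 2 * k * Ξ, ?_⟩
    have e1 : n ^ 2 * (2 * n * A' - 5 * ξ) = 2 * (n ^ 3 * A') - 5 * n ^ 2 * ξ := by ring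
    rw [e1, ← hA', hξ]
    linear_combination (-2 * h * u) * ha' - (h * n ^ 2 * v) * hb'
  refine ⟨A, A', B, X, hA.symm, hA'.symm, hB.symm, hX.symm, ?_, ?_⟩
  · unfold F1
    linear_combination 5 * hA + k ^ 2 * hB
  · unfold F2
    linear_combination 5 * hA' + (2 * n ^ 2) * hB - (5 * k ^ 2) * hX

end Pool.Agent.T6
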